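import Pool.Agent.Y342.SK.EtfMain

/-!
# Complex equiangular tight frames of `2 M` vectors in `ℂ ^ M` for `M = 2 ^ t * q`

There is a constant `C` such that for all natural numbers `n`, `q > 0`, `t` with `q ≤ 2 ↑↑ n` (the
power tower of `n` twos, `1` for `n = 0`) and `t ≥ 2 ^ C ^ (n + 1)` there is a complex equiangular
tight frame of `2 M` vectors in dimension `M = 2 ^ t * q`.
-/

namespace Pool.Agent.Results.MP_0c7934_co.AsymptoticExistence

/-- `f` is a complex equiangular tight frame of `2 M` vectors in `ℂ ^ M`: unit vectors, tight (hence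
spanning), all moduli of inner products of distinct members equal. -/
def IsETF {M : ℕ} (f : Fin (2 * M) → EuclideanSpace ℂ (Fin M)) : Prop :=
  (∀ i, ‖f i‖ = 1) ∧
  (∃ A : ℝ, 0 < A ∧ ∀ x, ∑ i, ‖inner ℂ x (f i)‖ ^ 2 = A * ‖x‖ ^ 2) ∧
  (∃ c : ℝ, ∀ i j, i ≠ j → ‖inner ℂ (f i) (f j)‖ = c)

theorem result : ∃ C : ℕ, ∀ n q t : ℕ, 0 < q → q ≤ (fun x : ℕ => 2 ^ x)^[n] 1 →
    2 ^ C ^ (n + 1) ≤ t →
    ∃ f : Fin (2 * (2 ^ t * q)) → EuclideanSpace ℂ (Fin (2 ^ t * q)), IsETF f := by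
  obtain ⟨C, _, h⟩ := Pool.Agent.Y342.SK.main_skew
  refine ⟨C, fun n q t hq hqn ht => ?_⟩
  have h1 := h n q (t + 1) hq hqn (by omega)
  rw [show 2 ^ (t + 1) * q = 2 * (2 ^ t * q) by ring] at h1
  obtain ⟨f, hf1, hf2, hf3⟩ := Pool.Agent.Y342.SK.etf_skew (Nat.mul_pos (by positivity) hq) h1
  refine ⟨f, hf1, ⟨2, by norm_num, fun x => ?_⟩, _, hf3⟩
  rw [← hf2 x]
  exact Finset.sum_congr rfl fun i _ => by rw [norm_inner_symm]

end Pool.Agent.Results.MP_0c7934_co.AsymptoticExistence
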