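import Pool.Agent.Y342.SK.EtfMain

/-!
# Equiangular tight frames of `2 M` vectors in `ℂ ^ M` for odd `M = (v ^ 2 ^ j + 1) / 2`

There is a constant `C` such that for all natural numbers `n`, `v`, `t`, `j`, `M` with `v ≤ 2 ↑↑ n`
(the power tower of `n` twos), `t ≥ 2 ^ C ^ (n + 1)`, `2 ^ t ∣ v + 1`, `j ≥ 1` and
`2 M = v ^ 2 ^ j + 1` (so `M` is odd) there is an equiangular tight frame of `2 M` vectors in `ℂ ^ M`.
-/

namespace Pool.Agent.Results.MP_0c7934_co.OddDimensions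

/-- `f` is a complex equiangular tight frame of `2 M` vectors in `ℂ ^ M`: unit vectors, tight (hence
spanning), all moduli of inner products of distinct members equal. -/
def IsETF {M : ℕ} (f : Fin (2 * M) → EuclideanSpace ℂ (Fin M)) : Prop :=
  (∀ i, ‖f i‖ = 1) ∧
  (∃ A : ℝ, 0 < A ∧ ∀ x, ∑ i, ‖inner ℂ x (f i)‖ ^ 2 = A * ‖x‖ ^ 2) ∧
  (∃ c : ℝ, ∀ i j, i ≠ j → ‖inner ℂ (f i) (f j)‖ = c)

theorem result : ∃ C : ℕ, ∀ n v t j M : ℕ, v ≤ (fun x : ℕ => 2 ^ x)^[n] 1 →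
    2 ^ C ^ (n + 1) ≤ t → 2 ^ t ∣ v + 1 → 1 ≤ j → 2 * M = v ^ 2 ^ j + 1 →
    ∃ f : Fin (2 * M) → EuclideanSpace ℂ (Fin M), IsETF f := by
  obtain ⟨C, _, h⟩ := Pool.Agent.Y342.SK.main_conf
  refine ⟨C, fun n v t j M hv ht hd hj hM => ?_⟩
  obtain ⟨i, rfl⟩ : ∃ i, j = i + 1 := ⟨j - 1, by omega⟩
  obtain ⟨K, hK1, hK2, hK3, hK4⟩ := h n v t i hv ht hd
  have hM0 : 0 < M := by omega
  obtain ⟨f, hf1, hf2, hf3⟩ :=
    Pool.Agent.Y342.SK.etf_sym (𝕜 := ℂ) hM0 hM.symm K hK1 hK2 hK3 hK4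
  let e : Fin (2 * M) ≃ Fin (v ^ 2 ^ (i + 1) + 1) := finCongr hM
  refine ⟨fun k => f (e k), fun k => hf1 _, ⟨2, by norm_num, fun x => ?_⟩, _,
    fun k l hkl => hf3 _ _ fun h' => hkl (e.injective h')⟩
  rw [← hf2 x, ← e.sum_comp]
  exact Finset.sum_congr rfl fun k _ => by rw [norm_inner_symm]

end Pool.Agent.Results.MP_0c7934_co.OddDimensions
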